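import Pool.Agent.H242.GX.Stm5

/-!
# Project GX (helper242), job GX5-NEC (helper111): the curvature vanishes nowhere
-/

set_option autoImplicit false

open Set Filter Topology
open scoped ContDiff

namespace Pool.Agent.H111.GX

open Pool.Agent.H242.GX

/-- the cross product -/
def cr (x y : ℂ) : ℝ := x.re * y.im - x.im * y.re

theorem hre {f : ℝ → ℂ} {f' : ℂ} {t : ℝ} (h : HasDerivAt f f' t) :
    HasDerivAt (fun t => (f t).re) f'.re t :=
  Complex.reCLM.hasFDerivAt.comp_hasDerivAt t h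

theorem him {f : ℝ → ℂ} {f' : ℂ} {t : ℝ} (h : HasDerivAt f f' t) :
    HasDerivAt (fun t => (f t).im) f'.im t :=
  Complex.imCLM.hasFDerivAt.comp_hasDerivAt t h

theorem hcr {f g : ℝ → ℂ} {f' g' : ℂ} {t : ℝ} (hf : HasDerivAt f f' t) (hg : HasDerivAt g g' t) :
    HasDerivAt (fun t => cr (f t) (g t)) (cr f' (g t) + cr (f t) g') t := by
  have h := ((hre hf).mul (him hg)).sub ((him hf).mul (hre hg))
  refine h.congr_deriv ?_
  unfold cr
  ring

/-- if the direction of the tangent vector is constant the curve is not periodic -/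
theorem per {γ v v' : ℝ → ℂ} (h1 : ∀ t, HasDerivAt γ (v t) t) (h2 : ∀ t, HasDerivAt v (v' t) t)
    (hper : γ 0 = γ 1) (hv : ∀ t, v t ≠ 0) (hω : ∀ t, cr (v t) (v' t) = 0) : False := by
  have hN : ∀ t, 0 < (v t).re * (v t).re + (v t).im * (v t).im := by
    intro t
    have := Complex.normSq_pos.2 (hv t)
    rwa [Complex.normSq_apply] at this
  have hNd : ∀ t, HasDerivAt (fun t => (v t).re * (v t).re + (v t).im * (v t).im)
      (((v' t).re * (v t).re + (v t).re * (v' t).re) +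
        ((v' t).im * (v t).im + (v t).im * (v' t).im)) t := fun t =>
    ((hre (h2 t)).mul (hre (h2 t))).add ((him (h2 t)).mul (him (h2 t)))
  have hcd : ∀ t, HasDerivAt (fun t => cr (v t) (v 0)) (cr (v' t) (v 0)) t := by
    intro t
    have h := hcr (h2 t) (hasDerivAt_const t (v 0))
    refine h.congr_deriv ?_
    unfold cr
    simp
  have hK : ∀ t, HasDerivAt (fun t => cr (v t) (v 0) * cr (v t) (v 0) /
      ((v t).re * (v t).re + (v t).im * (v t).im)) 0 t := by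
    intro t
    have h := ((hcd t).mul (hcd t)).div (hNd t) (hN t).ne'
    refine h.congr_deriv ?_
    rw [div_eq_zero_iff]
    left
    have h3 := hω t
    unfold cr at h3 ⊢
    simp only [Pi.mul_apply]
    linear_combination (-2) * ((v t).re * (v 0).im - (v t).im * (v 0).re) *
      ((v t).re * (v 0).re + (v t).im * (v 0).im) * h3
  have hconst : ∀ t, cr (v t) (v 0) * cr (v t) (v 0) /
      ((v t).re * (v t).re + (v t).im * (v t).im) =
      cr (v 0) (v 0) * cr (v 0) (v 0) / ((v 0).re * (v 0).re + (v 0).im * (v 0).im) := fun t =>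
    is_const_of_deriv_eq_zero (fun t => (hK t).differentiableAt) (fun t => (hK t).deriv) t 0
  have hcr0 : ∀ t, cr (v t) (v 0) = 0 := by
    intro t
    have h3 := hconst t
    have h4 : cr (v 0) (v 0) = 0 := by
      unfold cr
      ring
    rw [h4, mul_zero, zero_div, div_eq_zero_iff] at h3
    rcases h3 with h3 | h3
    · exact mul_self_eq_zero.1 h3
    · exact absurd h3 (hN t).ne'
  -- Rolle
  have hf : ∀ t, HasDerivAt (fun t => (γ t).re * (v 0).re + (γ t).im * (v 0).im)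
      ((v t).re * (v 0).re + (v t).im * (v 0).im) t := fun t =>
    ((hre (h1 t)).mul_const _).add ((him (h1 t)).mul_const _)
  obtain ⟨t, -, ht⟩ := exists_hasDerivAt_eq_zero (f := fun t => (γ t).re * (v 0).re +
    (γ t).im * (v 0).im) (f' := fun t => (v t).re * (v 0).re + (v t).im * (v 0).im)
    (a := 0) (b := 1) one_pos
    (fun t _ => (hf t).continuousAt.continuousWithinAt) (by
      show (γ 0).re * (v 0).re + (γ 0).im * (v 0).im = (γ 1).re * (v 0).re + (γ 1).im * (v 0).im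
      rw [hper]) (fun t _ => hf t)
  have ht' : (v t).re * (v 0).re + (v t).im * (v 0).im = 0 := ht
  have h5 := hcr0 t
  unfold cr at h5
  have h6 : ((v t).re * (v t).re + (v t).im * (v t).im) *
      ((v 0).re * (v 0).re + (v 0).im * (v 0).im) = 0 := by
    linear_combination ((v t).re * (v 0).re + (v t).im * (v 0).im) * ht' +
      ((v t).re * (v 0).im - (v t).im * (v 0).re) * h5
  exact absurd h6 (mul_pos (hN t) (hN 0)).ne'

/-- the analytic part: a zero of the curvature which is isolated from the right is impossible -/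
theorem noZero (hDE : S_DE) (hYEQ : S_YEQ) (hLIM1 : S_LIM1) (hLIM2 : S_LIM2) (hLIM3 : S_LIM3)
    (hLIM4 : S_LIM4) (hW6 : S_W6) (hEND : S_END) (g : ℝ → ℝ) (N : ℝ × ℝ → ℝ) (δ : ℝ)
    (hG : GData g N δ) : False := by
  obtain ⟨δ', M, hδ', hle, hdei⟩ := hDE g N δ hG
  have hw : ContDiff ℝ ∞ (deriv (deriv g)) := contDiff_deriv (contDiff_deriv hG.smg)
  obtain ⟨y, y₁, κ, κ₁, M', hY, hwy⟩ := hYEQ (deriv (deriv g)) δ' M hδ' hw hG.w0
    (fun t h1 h2 => hG.wpos t h1 (h2.trans_le hle)) hdei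
  obtain ⟨t₁, B, κ₀, ht1, ht2, hB, hb⟩ := hLIM1 y y₁ κ κ₁ δ' M' hY
  have h0 : 0 ≤ κ₀ := hLIM2 y y₁ κ κ₁ δ' M' t₁ B κ₀ hY ht1 ht2 hB hb
  rcases h0.eq_or_lt with h0 | h0
  · refine hLIM3 y y₁ κ κ₁ δ' M' t₁ B hY ht1 ht2 hB fun t h1 h2 => ?_
    obtain ⟨h3, h4, h5⟩ := hb t h1 h2
    rw [← h0, sub_zero] at h5
    exact ⟨h3, h4, h5⟩
  · have hlim := hLIM4 y y₁ κ κ₁ δ' M' t₁ B κ₀ hY ht1 ht2 hB h0 hb
    have hl : 0 < Real.sqrt (κ₀ / 6) := Real.sqrt_pos.2 (by positivity)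
    obtain ⟨h, hh, hh0, hgh⟩ := hW6 g y y₁ κ κ₁ δ' M' (Real.sqrt (κ₀ / 6)) hY hG.smg hwy hl hlim
    exact hEND g N δ hG h hh hh0 hgh

theorem gx_NEC' (hGRAPH : S_GRAPH) (hDE : S_DE) (hYEQ : S_YEQ) (hLIM1 : S_LIM1)
    (hLIM2 : S_LIM2) (hLIM3 : S_LIM3) (hLIM4 : S_LIM4) (hW6 : S_W6) (hEND : S_END) : S_NEC := by
  intro K hK U Y hF hσ
  obtain ⟨hc, hs, hi, γ, hγ, hper, hinj, hne, hran⟩ := hK
  refine ⟨hc, hs, hi, γ, hγ, hper, hinj, hne, hran, ?_⟩
  intro s₀ hs₀
  -- the derivatives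
  have hs1 := contDiff_infty_iff_deriv.1 hγ
  have hs2 := contDiff_infty_iff_deriv.1 hs1.2
  have hs3 := contDiff_infty_iff_deriv.1 hs2.2
  have h1 : ∀ t, HasDerivAt γ (deriv γ t) t := fun t => (hs1.1 t).hasDerivAt
  have h2 : ∀ t, HasDerivAt (deriv γ) (deriv (deriv γ) t) t := fun t => (hs2.1 t).hasDerivAt
  have h3 : ∀ t, HasDerivAt (deriv (deriv γ)) (deriv (deriv (deriv γ)) t) t := fun t =>
    (hs3.1 t).hasDerivAt
  obtain ⟨om, hω⟩ : ∃ om : ℝ → ℝ, om = fun t => cr (deriv γ t) (deriv (deriv γ) t) := ⟨_, rfl⟩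
  have hωc : Continuous om := by
    rw [hω]
    exact continuous_iff_continuousAt.2 fun t => (hcr (h2 t) (h3 t)).continuousAt
  have hω' : ∀ t, om t = (deriv γ t).re * (deriv (deriv γ) t).im -
      (deriv γ t).im * (deriv (deriv γ) t).re := fun t => by rw [hω]; rfl
  have hp1 : ∀ t, deriv γ (t + 1) = deriv γ t := by
    intro t
    rw [← deriv_comp_add_const]
    congr 1
    funext x
    exact hper x
  have hp2 : ∀ t, deriv (deriv γ) (t + 1) = deriv (deriv γ) t := by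
    intro t
    rw [← deriv_comp_add_const]
    congr 1
    funext x
    exact hp1 x
  have hωp : Function.Periodic om 1 := by
    intro t
    rw [hω', hω', hp1, hp2]
  -- the curvature is not identically zero
  obtain ⟨u, hu⟩ : ∃ u, om u ≠ 0 := by
    by_contra hcon
    push Not at hcon
    refine per h1 h2 ?_ hne fun t => ?_
    · have := hper 0
      rw [zero_add] at this
      exact this.symm
    · have := hcon t
      rw [hω] at this
      exact this
  -- a point after `s₀`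
  obtain ⟨s₁, hs₁, hωs₁⟩ : ∃ s₁, s₀ < s₁ ∧ om s₁ ≠ 0 := by
    obtain ⟨n, hn⟩ := exists_nat_gt (s₀ - u)
    refine ⟨u + n, by linarith, ?_⟩
    have := hωp.nat_mul n u
    rw [mul_one] at this
    rw [this]
    exact hu
  -- the last zero before `s₁`
  have hA : IsClosed {t : ℝ | t ≤ s₁ ∧ om t = 0} :=
    (isClosed_le continuous_id continuous_const).inter (isClosed_eq hωc continuous_const)
  have hAne : {t : ℝ | t ≤ s₁ ∧ om t = 0}.Nonempty := ⟨s₀, hs₁.le, by rw [hω']; exact hs₀⟩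
  have hAb : BddAbove {t : ℝ | t ≤ s₁ ∧ om t = 0} := ⟨s₁, fun t ht => ht.1⟩
  obtain ⟨ht0, ht0'⟩ := hA.csSup_mem hAne hAb
  obtain ⟨t₀, htd⟩ : ∃ t₀, t₀ = sSup {t : ℝ | t ≤ s₁ ∧ om t = 0} := ⟨_, rfl⟩
  rw [← htd] at ht0 ht0'
  have hlt : t₀ < s₁ := lt_of_le_of_ne ht0 fun h => hωs₁ (by rw [← h]; exact ht0')
  obtain ⟨g, N, δ, hG⟩ := hGRAPH K U Y γ t₀ s₁ hc.isClosed hs.convex hi hF hσ hγ hran hne hlt
    (by rw [← hω']; exact ht0') (fun t hta htb => by
      rw [← hω']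
      intro h0
      have h4 : t ≤ t₀ := by
        rw [htd]
        exact le_csSup hAb ⟨htb.le, h0⟩
      exact absurd hta (not_lt.2 h4))
  exact noZero hDE hYEQ hLIM1 hLIM2 hLIM3 hLIM4 hW6 hEND g N δ hG

set_option linter.unusedVariables false in
theorem gx_NEC (hTDIR : S_TDIR) (hSIGK : S_SIGK) (hGRAPH : S_GRAPH) (hEXP : S_EXP)
    (hJET : S_JET) (hDE : S_DE) (hYEQ : S_YEQ) (hLIM1 : S_LIM1) (hLIM2 : S_LIM2)
    (hLIM3 : S_LIM3) (hLIM4 : S_LIM4) (hW6 : S_W6) (hEND : S_END) : S_NEC :=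
  gx_NEC' hGRAPH hDE hYEQ hLIM1 hLIM2 hLIM3 hLIM4 hW6 hEND

end Pool.Agent.H111.GX
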